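import Mathlib

/-!
# A minimally non-perfectly divisible graph with a bisimplicial vertex

Let `G₀` be the Paley graph on 17 vertices with one vertex removed (16 vertices, clique number 3,
stability number 3). It is perfectly divisible, and it has exactly 8 good partitions `(A, B)`. For
each of them there is an induced path `b - a - c - d` with `a, c ∈ B` and `b, d ∈ A` such that `b`
and `d` are the ends of an induced path of odd length at least three inside `A`. Adding, for each
of the 8 partitions, one new vertex adjacent exactly to `b, a, c, d` gives a `K₄`-free graph `G`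
with 24 vertices and no good partition: the new vertex cannot go to `B` because of the triangle with
`a, c`, nor to `A` because of an odd hole. A minimal non-perfectly divisible induced subgraph of
`G` must contain one of the new vertices, since `G₀` is perfectly divisible, and the neighbourhood
of that vertex is contained in `{b, a} ∪ {c, d}`, hence is the union of two cliques.

The finite checks (decision trees) are evaluated by the kernel.
-/

set_option autoImplicit false

namespace Pool.Agent.Results.MP_090c48_co.BisimplicialMNPD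

open SimpleGraph

universe u v

section Defs

variable {V : Type u}

/-- `G` is perfect: every induced subgraph has chromatic number equal to its clique number. -/
def IsPerfect (G : SimpleGraph V) : Prop :=
  ∀ s : Set V, (G.induce s).chromaticNumber = (G.induce s).cliqueNum

/-- `(A, B)` is a good partition of the induced subgraph `G[S]`: `A` and `B` partition `S`,
`G[A]` is perfect and the clique number of `G[B]` is less than that of `G[S]`. -/
def GoodPartition (G : SimpleGraph V) (S A B : Set V) : Prop :=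
  A ∪ B = S ∧ Disjoint A B ∧ IsPerfect (G.induce A) ∧
    (G.induce B).cliqueNum < (G.induce S).cliqueNum

/-- `G` is perfectly divisible: every induced subgraph `G[S]` with at least one edge has a good
partition. -/
def PerfectlyDivisible (G : SimpleGraph V) : Prop :=
  ∀ S : Set V, (∃ x ∈ S, ∃ y ∈ S, G.Adj x y) → ∃ A B : Set V, GoodPartition G S A B

/-- `G` is minimally non-perfectly divisible: it is not perfectly divisible, but every proper
induced subgraph is. -/
def MNPD (G : SimpleGraph V) : Prop :=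
  ¬ PerfectlyDivisible G ∧ ∀ S : Set V, S ≠ Set.univ → PerfectlyDivisible (G.induce S)

/-- `v` is bisimplicial in `G`: its neighbourhood is the union of two cliques. -/
def Bisimplicial (G : SimpleGraph V) (v : V) : Prop :=
  ∃ K L : Set V, G.IsClique K ∧ G.IsClique L ∧ G.neighborSet v = K ∪ L

end Defs

section Transport

variable {V : Type u} {W : Type v}

/-- The image of an induced subgraph under an embedding. -/
noncomputable def isoImage {H : SimpleGraph V} {K : SimpleGraph W} (f : H ↪g K) (s : Set V) :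
    H.induce s ≃g K.induce (f '' s) where
  toEquiv := Equiv.Set.image f s f.injective
  map_rel_iff' := by
    intro a b
    simp

theorem chrom_iso {H : SimpleGraph V} {K : SimpleGraph W} (e : H ≃g K) :
    H.chromaticNumber = K.chromaticNumber :=
  le_antisymm (chromaticNumber_mono_of_hom e.toHom) (chromaticNumber_mono_of_hom e.symm.toHom)

theorem clique_iso {H : SimpleGraph V} {K : SimpleGraph W} (e : H ≃g K) :
    H.cliqueNum = K.cliqueNum := by
  have h : ∀ n : ℕ, (∃ s, H.IsNClique n s) ↔ ∃ s, K.IsNClique n s := by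
    intro n
    have h1 : (¬ ∃ s, H.IsNClique n s) ↔ H.CliqueFree n := by
      simp [CliqueFree]
    have h2 : (¬ ∃ s, K.IsNClique n s) ↔ K.CliqueFree n := by
      simp [CliqueFree]
    have h3 : H.CliqueFree n ↔ K.CliqueFree n :=
      ⟨fun h => h.comap ⟨e.symm.toEmbedding.toCopy⟩, fun h => h.comap ⟨e.toEmbedding.toCopy⟩⟩
    exact not_iff_not.1 (h1.trans (h3.trans h2.symm))
  unfold cliqueNum
  simp only [h]

theorem perfect_iso {H : SimpleGraph V} {K : SimpleGraph W} (e : H ≃g K) (h : IsPerfect H) :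
    IsPerfect K := by
  intro s
  have e1 := isoImage e.symm.toEmbedding s
  rw [chrom_iso e1, clique_iso e1]
  exact h _

theorem perfect_iso_iff {H : SimpleGraph V} {K : SimpleGraph W} (e : H ≃g K) :
    IsPerfect H ↔ IsPerfect K :=
  ⟨perfect_iso e, perfect_iso e.symm⟩

theorem good_image {H : SimpleGraph V} {K : SimpleGraph W} (f : H ↪g K) (S A B : Set V) :
    GoodPartition H S A B ↔ GoodPartition K (f '' S) (f '' A) (f '' B) := by
  unfold GoodPartition
  rw [← Set.image_union, f.injective.image_injective.eq_iff, Set.disjoint_image_iff f.injective,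
    perfect_iso_iff (isoImage f A), clique_iso (isoImage f B), clique_iso (isoImage f S)]

/-- Perfect divisibility of `G[S]`, expressed in `G`. -/
def PDOn (G : SimpleGraph V) (S : Set V) : Prop :=
  ∀ T : Set V, T ⊆ S → (∃ x ∈ T, ∃ y ∈ T, G.Adj x y) → ∃ A B : Set V, GoodPartition G T A B

theorem pd_iff (G : SimpleGraph V) : PerfectlyDivisible G ↔ PDOn G Set.univ := by
  unfold PerfectlyDivisible PDOn
  simp

theorem PDOn.mono {G : SimpleGraph V} {S T : Set V} (h : PDOn G T) (hST : S ⊆ T) : PDOn G S :=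
  fun U hU => h U (hU.trans hST)

theorem pdOn_image {H : SimpleGraph V} {K : SimpleGraph W} (f : H ↪g K) (S : Set V) :
    PDOn H S ↔ PDOn K (f '' S) := by
  constructor
  · intro h T hT ⟨x, hx, y, hy, hxy⟩
    obtain ⟨T, rfl⟩ : ∃ T', f '' T' = T := by
      refine ⟨f ⁻¹' T, ?_⟩
      rw [Set.image_preimage_eq_iff]
      exact hT.trans (Set.image_subset_range _ _)
    obtain ⟨x, hx, rfl⟩ := hx
    obtain ⟨y, hy, rfl⟩ := hy
    obtain ⟨A, B, hAB⟩ := h T ((Set.image_subset_image_iff f.injective).1 hT)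
      ⟨x, hx, y, hy, f.map_adj_iff.1 hxy⟩
    exact ⟨_, _, (good_image f T A B).1 hAB⟩
  · intro h T hT ⟨x, hx, y, hy, hxy⟩
    obtain ⟨A, B, hAB⟩ := h (f '' T) (Set.image_mono hT)
      ⟨f x, ⟨x, hx, rfl⟩, f y, ⟨y, hy, rfl⟩, f.map_adj_iff.2 hxy⟩
    have hA : ∃ A', f '' A' = A := by
      refine ⟨f ⁻¹' A, ?_⟩
      rw [Set.image_preimage_eq_iff]
      refine Set.Subset.trans ?_ (Set.image_subset_range f T)
      rw [← hAB.1]
      exact Set.subset_union_left
    have hB : ∃ B', f '' B' = B := by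
      refine ⟨f ⁻¹' B, ?_⟩
      rw [Set.image_preimage_eq_iff]
      refine Set.Subset.trans ?_ (Set.image_subset_range f T)
      rw [← hAB.1]
      exact Set.subset_union_right
    obtain ⟨A, rfl⟩ := hA
    obtain ⟨B, rfl⟩ := hB
    exact ⟨A, B, (good_image f T A B).2 hAB⟩

theorem pd_induce_iff (G : SimpleGraph V) (S : Set V) :
    PerfectlyDivisible (G.induce S) ↔ PDOn G S := by
  rw [pd_iff, pdOn_image (Embedding.induce S)]
  have : (Embedding.induce (G := G) S : S → V) '' Set.univ = S := by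
    ext x
    simp
  rw [this]

/-- A finite graph which is not perfectly divisible has a minimally non-perfectly divisible
induced subgraph. -/
theorem exists_mnpd [Finite V] (G : SimpleGraph V) (h : ¬ PerfectlyDivisible G) :
    ∃ S : Set V, MNPD (G.induce S) := by
  have hne : {S : Set V | ¬ PDOn G S}.Nonempty := ⟨Set.univ, (pd_iff G).not.1 h⟩
  obtain ⟨S, hS, hmin⟩ := (Set.toFinite {S : Set V | ¬ PDOn G S}).exists_minimal hne
  refine ⟨S, ?_, ?_⟩
  · rw [pd_induce_iff]
    exact hS
  · intro T hT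
    rw [pd_induce_iff, pdOn_image (Embedding.induce S)]
    by_contra hcon
    have h1 : (Embedding.induce (G := G) S : S → V) '' T ⊆ S := by
      rintro _ ⟨x, _, rfl⟩
      exact x.2
    have h2 := hmin hcon h1
    apply hT
    ext x
    constructor
    · intro _
      trivial
    · intro _
      obtain ⟨y, hy, hyx⟩ := h2 x.2
      have : y = x := Subtype.ext hyx
      rwa [← this]

end Transport

section Perfect

variable {V : Type u}

theorem perfect_on_iff (G : SimpleGraph V) (A : Set V) :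
    IsPerfect (G.induce A) ↔
      ∀ S : Set V, S ⊆ A → (G.induce S).chromaticNumber = (G.induce S).cliqueNum := by
  constructor
  · intro h S hS
    obtain ⟨S, rfl⟩ : ∃ S' : Set A, (Embedding.induce (G := G) A : A → V) '' S' = S := by
      refine ⟨Subtype.val ⁻¹' S, ?_⟩
      ext x
      simp only [Set.mem_image, Set.mem_preimage]
      constructor
      · rintro ⟨y, hy, rfl⟩
        exact hy
      · intro hx
        exact ⟨⟨x, hS hx⟩, hx, rfl⟩
    rw [← chrom_iso (isoImage (Embedding.induce A) S), ← clique_iso (isoImage (Embedding.induce A) S)]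
    exact h S
  · intro h S
    rw [chrom_iso (isoImage (Embedding.induce A) S), clique_iso (isoImage (Embedding.induce A) S)]
    apply h
    rintro _ ⟨x, _, rfl⟩
    exact x.2

theorem IsPerfect.mono {G : SimpleGraph V} {A B : Set V} (h : IsPerfect (G.induce B))
    (hAB : A ⊆ B) : IsPerfect (G.induce A) := by
  rw [perfect_on_iff] at h ⊢
  exact fun S hS => h S (hS.trans hAB)


/-- `S` contains no triangle of `G`. -/
def TriFree (G : SimpleGraph V) (S : Set V) : Prop :=
  ∀ x ∈ S, ∀ y ∈ S, ∀ z ∈ S, G.Adj x y → G.Adj y z → G.Adj x z → False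

/-- A proper colouring of `G[S]` given by a function on all vertices. -/
def ColOn (G : SimpleGraph V) (S : Set V) {α : Type} (c : V → α) : Prop :=
  ∀ x ∈ S, ∀ y ∈ S, G.Adj x y → c x ≠ c y

theorem three_le_cliqueNum [Finite V] {G : SimpleGraph V} {S : Set V} (h : ¬ TriFree G S) :
    3 ≤ (G.induce S).cliqueNum := by
  unfold TriFree at h
  push Not at h
  obtain ⟨x, hx, y, hy, z, hz, hxy, hyz, hxz, -⟩ := h
  classical
  have hc : (G.induce S).IsNClique 3 {⟨x, hx⟩, ⟨y, hy⟩, ⟨z, hz⟩} := by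
    rw [is3Clique_triple_iff]
    exact ⟨hxy, hxz, hyz⟩
  have := hc.isClique.card_le_cliqueNum
  rwa [hc.card_eq] at this

theorem two_le_cliqueNum [Finite V] {G : SimpleGraph V} {S : Set V} (h : ∃ x ∈ S, ∃ y ∈ S, G.Adj x y) :
    2 ≤ (G.induce S).cliqueNum := by
  obtain ⟨x, hx, y, hy, hxy⟩ := h
  classical
  have hc : (G.induce S).IsNClique 2 {⟨x, hx⟩, ⟨y, hy⟩} := by
    constructor
    · simp only [Finset.coe_insert, Finset.coe_singleton, isClique_iff, Set.pairwise_insert,
        Set.pairwise_singleton, true_and, Set.mem_singleton_iff, forall_eq]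
      intro _
      exact ⟨hxy, hxy.symm⟩
    · rw [Finset.card_pair]
      intro h
      exact hxy.ne (congrArg Subtype.val h)
  have := hc.isClique.card_le_cliqueNum
  rwa [hc.card_eq] at this

theorem one_le_cliqueNum [Finite V] {G : SimpleGraph V} {S : Set V} (h : S.Nonempty) :
    1 ≤ (G.induce S).cliqueNum := by
  obtain ⟨x, hx⟩ := h
  have hc : (G.induce S).IsNClique 1 {⟨x, hx⟩} := by
    constructor
    · simp
    · simp
  have := hc.isClique.card_le_cliqueNum
  rwa [hc.card_eq] at this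

theorem cliqueNum_le_two {G : SimpleGraph V} {S : Set V} (h : TriFree G S) :
    (G.induce S).cliqueNum ≤ 2 := by
  by_contra hcon
  push Not at hcon
  obtain ⟨s, hs⟩ := (G.induce S).exists_isNClique_cliqueNum
  obtain ⟨t, hts, ht⟩ := Finset.exists_subset_card_eq (s := s) (n := 3) (by rw [hs.card_eq]; exact hcon)
  classical
  have h3 : (G.induce S).IsNClique 3 t := ⟨hs.isClique.subset (by exact_mod_cast hts), ht⟩
  obtain ⟨a, b, c, hab, hac, hbc, -⟩ := is3Clique_iff.1 h3
  exact h a a.2 b b.2 c c.2 hab hbc hac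

theorem cliqueNum_le_one {G : SimpleGraph V} {S : Set V}
    (h : ∀ x ∈ S, ∀ y ∈ S, ¬ G.Adj x y) : (G.induce S).cliqueNum ≤ 1 := by
  by_contra hcon
  push Not at hcon
  obtain ⟨s, hs⟩ := (G.induce S).exists_isNClique_cliqueNum
  obtain ⟨a, ha, b, hb, hab⟩ := Finset.one_lt_card.1 (by rw [hs.card_eq]; exact hcon)
  exact h a a.2 b b.2 (hs.isClique ha hb hab)

theorem colorable_of_colOn {G : SimpleGraph V} {S : Set V} {k : ℕ} {c : V → Fin k}
    (h : ColOn G S c) : (G.induce S).Colorable k :=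
  ⟨Coloring.mk (fun x => c x.1) fun {x y} hxy => h x.1 x.2 y.1 y.2 hxy⟩

theorem perfect_eq {G : SimpleGraph V} {S : Set V} {k : ℕ} (h1 : (G.induce S).Colorable k)
    (h2 : k ≤ (G.induce S).cliqueNum) :
    (G.induce S).chromaticNumber = (G.induce S).cliqueNum := by
  apply le_antisymm
  · refine h1.chromaticNumber_le.trans ?_
    exact_mod_cast h2
  · exact cliqueNum_le_chromaticNumber

/-- Criterion for `G[A]` being perfect, in case that `G[A]` is 3-colourable. -/
theorem perfect_of [Finite V] {G : SimpleGraph V} {A : Set V}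
    (h3 : ∃ c : V → Fin 3, ColOn G A c)
    (h2 : ∀ S : Set V, S ⊆ A → TriFree G S → ∃ c : V → Fin 2, ColOn G S c) :
    IsPerfect (G.induce A) := by
  rw [perfect_on_iff]
  intro S hS
  by_cases ht : TriFree G S
  · by_cases he : ∃ x ∈ S, ∃ y ∈ S, G.Adj x y
    · obtain ⟨c, hc⟩ := h2 S hS ht
      exact perfect_eq (colorable_of_colOn hc) (two_le_cliqueNum he)
    · push Not at he
      have hb : G.induce S = ⊥ := by
        ext x y
        simp only [comap_adj, bot_adj, iff_false]
        exact he x x.2 y y.2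
      rcases S.eq_empty_or_nonempty with rfl | hne
      · refine perfect_eq (k := 0) ?_ (Nat.zero_le _)
        exact ⟨Coloring.mk (fun x => (x.2 : False).elim) fun {x} => (x.2 : False).elim⟩
      · refine perfect_eq (k := 1) ?_ (one_le_cliqueNum hne)
        exact ⟨Coloring.mk (fun _ => 0) fun {x y} hxy => (he x x.2 y y.2 hxy).elim⟩
  · obtain ⟨c, hc⟩ := h3
    exact perfect_eq (k := 3) (colorable_of_colOn (c := c) fun x hx y hy => hc x (hS hx) y (hS hy))
      (three_le_cliqueNum ht)

/-- A graph with a triangle-free induced subgraph which is not 2-colourable is not perfect. -/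
theorem not_perfect {G : SimpleGraph V} {A T : Set V} (hTA : T ⊆ A) (ht : TriFree G T)
    (h2 : ∀ c : V → Bool, ¬ ColOn G T c) : ¬ IsPerfect (G.induce A) := by
  intro h
  rw [perfect_on_iff] at h
  have h1 := h T hTA
  have h3 : (G.induce T).Colorable 2 := by
    rw [← chromaticNumber_le_iff_colorable, h1]
    exact_mod_cast cliqueNum_le_two ht
  obtain ⟨c⟩ := h3
  classical
  refine h2 (fun x => if hx : x ∈ T then decide (c ⟨x, hx⟩ = 0) else false) ?_
  intro x hx y hy hxy heq
  simp only [hx, hy, dif_pos, decide_eq_decide] at heq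
  have hne : c ⟨x, hx⟩ ≠ c ⟨y, hy⟩ := c.valid (by exact hxy)
  apply hne
  by_cases h0 : c ⟨x, hx⟩ = 0
  · rw [h0, heq.1 h0]
  · have h0' : ¬ c ⟨y, hy⟩ = 0 := fun h => h0 (heq.2 h)
    have e1 : c ⟨x, hx⟩ = 1 := by omega
    have e2 : c ⟨y, hy⟩ = 1 := by omega
    rw [e1, e2]

end Perfect

section Certificates

/-- Decision trees with certificates at the leaves: `tri i j k` is a triangle, `odd l` is a closed
walk of odd length, `col a b c` are three stable sets (given as bit masks), and `br v s t` branches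
over the two possible places of the vertex `v`. -/
inductive DTree : Type
  | tri (i j k : ℕ)
  | odd (l : List ℕ)
  | col (a b c : ℕ)
  | br (v : ℕ) (s t : DTree)

open DTree

/-- The neighbourhoods of the 24 vertices as bit masks. -/
def rows : List ℕ :=
  [4432662, 1918509, 1084507, 6326, 8532333, 2122458, 9487796, 2132840, 71377, 1453475, 6839110,
  11449996, 290072, 4250161, 4306018, 8939717, 16643, 2577, 6658, 35842, 582, 3232, 25601,
  34896]


/-- The neighbourhood of `i` as a bit mask. -/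
def row (i : ℕ) : ℕ := rows.getD i 0

/-- Adjacency. -/
def adj (i j : ℕ) : Bool := (row i).testBit j

/-- The graph on 24 vertices: the vertices `0, …, 15` induce the Paley graph on 17 vertices minus
a vertex, and each of `16, …, 23` is adjacent exactly to the four vertices of an induced path. -/
def graph : SimpleGraph (Fin 24) where
  Adj x y := adj x y = true
  symm := ⟨by decide +kernel⟩
  loopless := ⟨by decide +kernel⟩

theorem graph_adj (x y : Fin 24) : graph.Adj x y ↔ adj x y = true := Iff.rfl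

/-- The walk that continues from `cur` along the list and then closes at `f` has odd length
(`p` says that the distance walked so far is even). -/
def oddWalk (f : ℕ) : ℕ → Bool → List ℕ → Bool
  | cur, p, [] => p && adj cur f
  | cur, p, x :: l => adj cur x && oddWalk f x (!p) l

/-- No triangle in the list. -/
def triFreeList (l : List ℕ) : Bool :=
  l.all fun x => l.all fun y => !(adj x y) || l.all fun z => !(adj y z && adj x z)

/-- Checks that the tree refutes the existence of a partition `(A', B')` with `A ⊆ A'`, `B ⊆ B'`,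
`G[A']` perfect and `G[B']` triangle-free. -/
def refute : DTree → ℕ → ℕ → Bool
  | .tri i j k, _, B => adj i j && adj j k && adj i k && B.testBit i && B.testBit j && B.testBit k
  | .odd [], _, _ => false
  | .odd (x :: l), A, _ =>
    (x :: l).all (fun y => A.testBit y) && oddWalk x x true l && triFreeList (x :: l)
  | .col _ _ _, _, _ => false
  | .br v s t, A, B => decide (v < 24) && refute s (A ||| 1 <<< v) B && refute t A (B ||| 1 <<< v)

/-- The bit mask `m` is a stable set. -/
def stable (m : ℕ) : Bool :=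
  (List.range 24).all fun i => !(m.testBit i) || (List.range 24).all fun j =>
    !(m.testBit j && adj i j)

/-- Checks that each triangle-free set which contains `I` and is disjoint from `R` is the union of
three stable sets (of two stable sets, if `two` is `true`). -/
def cover (two : Bool) : DTree → ℕ → ℕ → Bool
  | .tri i j k, I, _ => adj i j && adj j k && adj i k && I.testBit i && I.testBit j && I.testBit k
  | .odd _, _, _ => false
  | .col a b c, _, R => stable a && stable b && stable c &&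
      (List.range 24).all (fun i => a.testBit i || b.testBit i || c.testBit i || R.testBit i) &&
      (!two || c == 0)
  | .br v s t, I, R =>
    decide (v < 24) && cover two s (I ||| 1 <<< v) R && cover two t I (R ||| 1 <<< v)

/-- Refutation tree for the graph. -/
def treeG : DTree :=
  br 11 (br 4 (br 1 (br 6 (br 0 (br 14 (odd [0, 1, 14, 6, 4]) (br 10 (odd [0, 1, 10, 6, 4]) (br
  12 (br 9 (odd [0, 4, 12, 11, 9]) (br 7 (odd [4, 6, 7, 11, 12]) (br 15 (odd [0, 4, 12, 11, 15])
  (br 5 (br 8 (br 13 (odd [0, 8, 6, 5, 13]) (tri 13 14 15)) (tri 7 8 9)) (tri 5 7 9))))) (tri 10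
  12 14)))) (br 15 (br 17 (odd [4, 6, 15, 11, 17]) (br 3 (odd [3, 4, 6, 15, 11]) (br 9 (br 14
  (odd [1, 9, 11, 15, 14]) (br 5 (odd [5, 6, 15, 11, 9]) (br 7 (br 13 (odd [4, 6, 7, 11, 13])
  (tri 5 13 14)) (tri 3 5 7)))) (tri 0 9 17)))) (br 2 (br 13 (br 7 (odd [4, 6, 7, 11, 13]) (br 5
  (odd [2, 6, 5, 13, 11]) (br 9 (odd [1, 2, 4, 13, 9]) (tri 5 7 9)))) (tri 0 13 15)) (tri 0 2
  15)))) (br 14 (br 10 (br 2 (br 5 (odd [2, 4, 5, 14, 10]) (br 13 (odd [1, 2, 11, 13, 14]) (br 9
  (br 15 (odd [1, 9, 11, 15, 14]) (br 0 (br 23 (odd [0, 4, 23, 11, 9]) (tri 6 15 23)) (tri 0 13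
  15))) (tri 5 9 13)))) (br 15 (br 9 (odd [1, 9, 11, 15, 14]) (br 0 (odd [0, 1, 10, 11, 15]) (br
  8 (br 17 (odd [4, 8, 10, 11, 17]) (tri 0 9 17)) (tri 0 8 9)))) (tri 2 6 15))) (br 2 (br 8 (br
  7 (odd [2, 4, 8, 7, 11]) (br 5 (br 15 (odd [2, 4, 5, 14, 15]) (tri 6 7 15)) (tri 5 6 7))) (tri
  6 8 10)) (tri 2 6 10))) (br 5 (br 10 (br 8 (odd [1, 5, 4, 8, 10]) (br 7 (odd [1, 5, 7, 11,
  10]) (tri 6 7 8))) (tri 6 10 14)) (tri 5 6 14)))) (br 10 (br 3 (br 8 (odd [3, 4, 8, 10, 11])
  (br 6 (odd [3, 4, 6, 10, 11]) (br 7 (br 0 (br 9 (odd [0, 4, 3, 7, 9]) (br 15 (odd [0, 4, 3, 7,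
  15]) (br 5 (br 23 (odd [4, 5, 7, 11, 23]) (tri 6 15 23)) (tri 1 5 9)))) (br 2 (br 9 (odd [2,
  3, 7, 9, 10]) (tri 0 1 9)) (tri 0 1 2))) (tri 6 7 8)))) (br 2 (br 5 (br 14 (odd [2, 4, 5, 14,
  10]) (br 9 (odd [2, 4, 5, 9, 10]) (br 7 (odd [2, 4, 5, 7, 11]) (br 0 (br 8 (br 12 (odd [0, 2,
  11, 12, 8]) (br 13 (odd [4, 8, 10, 11, 13]) (tri 12 13 14))) (tri 7 8 9)) (tri 0 1 9))))) (tri
  1 3 5)) (tri 1 2 3))) (br 2 (br 9 (br 14 (br 8 (odd [2, 4, 8, 9, 11]) (br 6 (br 12 (odd [2, 6,
  14, 12, 11]) (tri 8 10 12)) (tri 6 8 10))) (tri 1 10 14)) (tri 1 9 10)) (tri 1 2 10)))) (br 5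
  (br 0 (br 6 (br 2 (br 13 (odd [2, 6, 5, 13, 11]) (br 9 (odd [0, 2, 6, 5, 9]) (br 12 (br 8 (odd
  [2, 6, 8, 12, 11]) (br 14 (odd [2, 6, 14, 12, 11]) (br 10 (br 15 (br 22 (odd [0, 15, 11, 10,
  22]) (tri 13 14 22)) (tri 13 14 15)) (tri 8 9 10)))) (tri 4 12 13)))) (br 3 (br 10 (odd [3, 5,
  6, 10, 11]) (br 15 (odd [3, 5, 6, 15, 11]) (br 1 (br 13 (odd [0, 1, 3, 11, 13]) (br 8 (odd [0,
  1, 5, 6, 8]) (br 12 (br 9 (br 14 (odd [1, 9, 11, 12, 14]) (tri 13 14 15)) (tri 8 9 10)) (tri 4
  8 12)))) (tri 1 2 10)))) (tri 2 3 4))) (br 2 (br 8 (br 12 (odd [0, 2, 11, 12, 8]) (br 3 (br 13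
  (odd [0, 2, 3, 5, 13]) (tri 4 12 13)) (tri 3 4 12))) (tri 4 6 8)) (tri 2 4 6))) (br 2 (br 8
  (br 13 (br 6 (odd [2, 6, 5, 13, 11]) (br 1 (odd [1, 2, 11, 13, 5]) (br 9 (br 16 (br 14 (odd
  [8, 9, 13, 14, 16]) (br 10 (br 15 (odd [2, 10, 9, 13, 15]) (tri 6 14 15)) (tri 1 10 14))) (tri
  0 1 16)) (tri 0 1 9)))) (tri 0 4 13)) (tri 0 4 8)) (tri 0 2 4))) (br 3 (br 6 (br 13 (br 0 (br
  1 (odd [0, 1, 3, 11, 13]) (br 9 (br 14 (br 20 (odd [6, 14, 13, 9, 20]) (br 2 (odd [2, 6, 14,
  13, 11]) (tri 1 2 20))) (tri 1 5 14)) (tri 1 5 9))) (br 2 (br 8 (br 12 (odd [2, 6, 8, 12, 11])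
  (br 9 (odd [2, 6, 8, 9, 11]) (br 14 (odd [2, 6, 14, 13, 11]) (br 7 (br 10 (odd [2, 3, 7, 8,
  10]) (tri 10 12 14)) (tri 5 7 9))))) (tri 0 4 8)) (tri 0 2 4))) (tri 4 5 13)) (tri 4 5 6))
  (tri 3 4 5)))) (br 9 (br 2 (br 12 (br 7 (br 13 (br 3 (odd [3, 7, 9, 13, 12]) (br 4 (br 10 (odd
  [2, 4, 13, 9, 10]) (br 6 (odd [4, 6, 7, 9, 13]) (br 1 (odd [1, 2, 4, 13, 9]) (br 5 (br 8 (odd
  [5, 7, 8, 12, 13]) (tri 6 8 10)) (tri 1 3 5))))) (br 5 (br 8 (odd [5, 7, 8, 12, 13]) (br 0 (br
  6 (odd [0, 2, 6, 5, 13]) (tri 4 6 8)) (tri 0 4 8))) (tri 3 4 5)))) (br 15 (br 10 (odd [2, 10,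
  9, 7, 15]) (br 1 (odd [1, 2, 15, 7, 9]) (br 14 (br 8 (odd [7, 8, 12, 14, 15]) (br 4 (odd [2,
  4, 12, 14, 15]) (br 0 (br 6 (odd [0, 2, 6, 7, 9]) (tri 4 6 8)) (tri 0 4 8)))) (tri 1 10 14))))
  (tri 11 13 15))) (br 3 (br 15 (br 21 (br 14 (odd [2, 3, 12, 14, 15]) (br 13 (odd [2, 3, 12,
  13, 15]) (br 5 (br 10 (odd [3, 5, 21, 10, 12]) (br 8 (odd [3, 5, 9, 8, 12]) (br 1 (br 6 (br 19
  (odd [1, 5, 6, 15, 19]) (tri 10 11 19)) (tri 6 7 8)) (tri 1 10 14)))) (tri 5 13 14)))) (tri 7
  11 21)) (tri 7 11 15)) (tri 3 7 11))) (br 3 (br 10 (br 13 (br 7 (odd [2, 3, 7, 9, 10]) (br 15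
  (odd [2, 10, 9, 13, 15]) (tri 7 11 15))) (tri 11 12 13)) (tri 10 11 12)) (tri 3 11 12))) (br 3
  (br 10 (br 15 (br 0 (br 14 (odd [0, 9, 10, 14, 15]) (br 6 (odd [0, 9, 10, 6, 15]) (br 4 (br 5
  (br 7 (odd [0, 4, 3, 7, 9]) (br 8 (br 21 (odd [4, 5, 21, 10, 8]) (tri 7 11 21)) (tri 6 7 8)))
  (tri 5 6 14)) (tri 2 4 6)))) (br 1 (br 4 (br 13 (odd [1, 3, 4, 13, 9]) (br 8 (odd [1, 3, 4, 8,
  9]) (br 6 (odd [1, 3, 4, 6, 10]) (br 7 (br 12 (odd [3, 7, 9, 10, 12]) (tri 11 12 13)) (tri 6 7
  8))))) (tri 0 2 4)) (tri 0 1 2))) (tri 2 11 15)) (tri 2 10 11)) (tri 2 3 11))) (br 7 (br 10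
  (br 13 (br 17 (br 18 (br 3 (br 1 (br 8 (odd [1, 3, 7, 8, 10]) (br 6 (odd [1, 3, 7, 6, 10]) (br
  0 (br 4 (br 15 (odd [0, 4, 3, 7, 15]) (br 14 (odd [1, 3, 4, 13, 14]) (tri 6 14 15))) (tri 4 6
  8)) (tri 0 8 9)))) (br 0 (br 5 (br 8 (odd [0, 8, 7, 5, 13]) (br 2 (odd [0, 2, 3, 5, 13]) (br
  15 (br 4 (odd [0, 4, 3, 7, 15]) (br 12 (odd [3, 7, 15, 13, 12]) (tri 4 8 12))) (tri 2 11
  15)))) (tri 1 5 9)) (tri 0 1 9))) (br 2 (br 12 (br 0 (odd [0, 2, 10, 12, 13]) (br 1 (br 4 (odd
  [1, 2, 4, 12, 18]) (br 5 (odd [1, 5, 13, 12, 18]) (tri 3 4 5))) (tri 0 1 9))) (tri 3 11 12))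
  (tri 2 3 11))) (tri 9 11 18)) (tri 9 11 17)) (tri 9 11 13)) (tri 9 10 11)) (tri 7 9 11)))

/-- Covering tree for the vertices `0, …, 15`. -/
def treeK : DTree :=
  br 2 (br 6 (br 4 (tri 2 4 6) (br 10 (tri 2 6 10) (br 15 (tri 2 6 15) (br 7 (br 5 (tri 5 6 7)
  (br 8 (tri 6 7 8) (br 11 (br 3 (tri 2 3 11) (br 9 (tri 7 9 11) (col 18433 4162 8324))) (br 0
  (br 1 (tri 0 1 2) (col 16393 8324 4672)) (col 4162 8324 16904))))) (br 3 (br 1 (tri 1 2 3) (br
  11 (tri 2 3 11) (br 5 (br 14 (tri 5 6 14) (col 4129 8452 584)) (col 16393 8452 4672)))) (br 5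
  (br 14 (tri 5 6 14) (br 9 (br 1 (tri 1 5 9) (br 13 (tri 5 9 13) (col 2081 260 4672))) (col
  2081 4162 8452))) (br 0 (br 1 (tri 0 1 2) (col 18433 8452 4672)) (col 8258 4612 18688))))))))
  (br 0 (br 1 (tri 0 1 2) (br 4 (tri 0 2 4) (br 15 (tri 0 2 15) (br 10 (br 11 (tri 2 10 11) (br
  8 (br 9 (tri 0 8 9) (br 12 (tri 8 10 12) (col 16393 292 9344))) (br 13 (br 9 (tri 0 9 13) (col
  16393 4132 9344)) (col 1057 4228 16904)))) (br 9 (br 8 (tri 0 8 9) (br 13 (tri 0 9 13) (col
  2081 4228 16904))) (br 3 (br 11 (tri 2 3 11) (col 4129 8324 16648)) (col 4129 8324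
  18688))))))) (br 11 (br 3 (tri 2 3 11) (br 10 (tri 2 10 11) (br 15 (tri 2 11 15) (br 13 (br 9
  (tri 9 11 13) (br 12 (tri 11 12 13) (col 8322 292 18448))) (br 9 (br 7 (tri 7 9 11) (col 2306
  4132 16912)) (col 146 4132 18688)))))) (br 1 (br 3 (tri 1 2 3) (br 10 (tri 1 2 10) (br 5 (br 9
  (tri 1 5 9) (br 14 (tri 1 5 14) (col 146 8452 36896))) (br 12 (br 13 (br 4 (tri 4 12 13) (br
  14 (tri 12 13 14) (col 4226 8452 33280))) (col 146 16644 37376)) (col 8322 16644 33296)))))
  (br 4 (br 3 (tri 2 3 4) (br 13 (br 5 (tri 4 5 13) (br 12 (tri 4 12 13) (col 16644 33296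
  9344))) (br 8 (br 12 (tri 4 8 12) (col 16900 1168 33056)) (col 4228 16912 33824)))) (br 5 (br
  9 (br 7 (tri 5 7 9) (br 13 (tri 5 9 13) (col 4612 16648 33824))) (br 14 (br 13 (tri 5 13 14)
  (col 4228 16648 33824)) (col 4132 33032 9344))) (br 8 (br 10 (br 9 (tri 8 9 10) (br 12 (tri 8
  10 12) (col 8324 16648 33792))) (col 8324 16648 37376)) (col 16516 9224 37376)))))))) (br 9
  (br 5 (br 1 (tri 1 5 9) (br 7 (tri 5 7 9) (br 13 (tri 5 9 13) (br 10 (br 8 (tri 8 9 10) (br 11
  (tri 9 10 11) (br 6 (br 4 (tri 4 5 6) (br 14 (tri 5 6 14) (col 73 33824 4608))) (col 1033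
  16912 36896)))) (br 4 (br 3 (tri 3 4 5) (br 6 (tri 4 5 6) (col 4129 33296 18688))) (br 6 (br
  14 (tri 5 6 14) (col 73 2336 37376)) (col 16393 2336 37376))))))) (br 8 (br 0 (tri 0 8 9) (br
  7 (tri 7 8 9) (br 10 (tri 8 9 10) (br 4 (br 6 (tri 4 6 8) (br 12 (tri 4 8 12) (col 8450 33288
  18448))) (br 13 (br 11 (tri 9 11 13) (col 8258 16648 37376)) (col 2114 16648 37376)))))) (br
  13 (br 0 (tri 0 9 13) (br 11 (tri 9 11 13) (br 14 (br 12 (tri 12 13 14) (br 15 (tri 13 14 15)
  (col 8258 16904 1168))) (br 4 (br 12 (tri 4 12 13) (col 32786 584 9344)) (col 4162 33288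
  9344))))) (br 10 (br 1 (tri 1 9 10) (br 11 (tri 9 10 11) (br 14 (br 6 (tri 6 10 14) (br 12
  (tri 10 12 14) (col 1033 16528 33280))) (col 73 1168 37376)))) (br 7 (br 11 (tri 7 9 11) (br 6
  (br 15 (tri 6 7 15) (col 16393 146 4672)) (col 16393 146 37376))) (br 0 (br 1 (tri 0 1 9) (col
  73 18448 37376)) (col 4162 33288 18448))))))) (br 6 (br 14 (br 5 (tri 5 6 14) (br 10 (tri 6 10
  14) (br 15 (tri 6 14 15) (br 8 (br 4 (tri 4 6 8) (br 7 (tri 6 7 8) (col 18433 4162 8456))) (br
  12 (br 13 (tri 12 13 14) (col 73 4226 18448)) (col 73 8322 18448)))))) (br 4 (br 5 (tri 4 5 6)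
  (br 8 (tri 4 6 8) (br 12 (br 3 (tri 3 4 12) (br 13 (tri 4 12 13) (col 2113 4226 33808))) (br
  15 (br 7 (tri 6 7 15) (col 2113 32786 9224)) (col 73 2066 9344))))) (br 7 (br 5 (tri 5 6 7)
  (br 8 (tri 6 7 8) (br 15 (tri 6 7 15) (col 2113 4226 9224)))) (br 10 (br 8 (tri 6 8 10) (br 11
  (br 12 (tri 10 11 12) (col 2081 8258 33800)) (col 1033 8258 36896))) (br 11 (br 13 (br 12 (tri
  11 12 13) (br 15 (tri 11 13 15) (col 73 8450 2080))) (col 73 2306 36896)) (col 73 8450
  36896)))))) (br 12 (br 4 (br 3 (tri 3 4 12) (br 8 (tri 4 8 12) (br 13 (tri 4 12 13) (br 10 (br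
  11 (tri 10 11 12) (br 14 (tri 10 12 14) (col 1057 146 36864))) (col 16513 2066 36896))))) (br
  11 (br 3 (tri 3 11 12) (br 10 (tri 10 11 12) (br 13 (tri 11 12 13) (col 16513 2306 36896))))
  (br 14 (br 10 (tri 10 12 14) (br 13 (tri 12 13 14) (col 16393 4226 33056))) (br 8 (br 10 (tri
  8 10 12) (col 4129 8322 33032)) (col 1033 8322 36896))))) (br 5 (br 3 (br 1 (tri 1 3 5) (br 4
  (tri 3 4 5) (br 7 (tri 3 5 7) (col 18433 8456 33824)))) (br 13 (br 4 (tri 4 5 13) (br 14 (tri
  5 13 14) (col 2081 33026 9344))) (br 1 (br 14 (tri 1 5 14) (col 1153 2066 33056)) (col 1153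
  18448 33056)))) (br 13 (br 15 (br 0 (tri 0 13 15) (br 11 (tri 11 13 15) (br 14 (tri 13 14 15)
  (col 146 8456 33792)))) (br 0 (br 4 (tri 0 4 13) (col 1033 8322 18688)) (col 146 9224 18688)))
  (br 7 (br 11 (br 3 (tri 3 7 11) (br 15 (tri 7 11 15) (col 1153 2066 16640))) (col 1033 33026
  16528)) (col 1033 32786 18688)))))))

/-- Covering tree for the perfect part of a good partition of the vertices `0, …, 15`. -/
def treeA : DTree :=
  br 7 (br 9 (br 5 (tri 5 7 9) (br 8 (tri 7 8 9) (br 11 (tri 7 9 11) (col 8324 16904 0)))) (br 3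
  (br 5 (tri 3 5 7) (br 11 (tri 3 7 11) (col 8324 16648 0))) (br 5 (br 13 (br 14 (tri 5 13 14)
  (col 8324 2336 0)) (col 16516 2336 0)) (col 8324 18688 0)))) (br 13 (br 5 (br 9 (tri 5 9 13)
  (br 14 (tri 5 13 14) (br 2 (br 3 (br 11 (tri 2 3 11) (col 292 8200 0)) (col 8452 2080 0)) (col
  8456 2080 0)))) (br 11 (br 9 (tri 9 11 13) (br 2 (br 3 (tri 2 3 11) (col 8452 18432 0)) (col
  8456 18432 0))) (col 8452 16904 0))) (br 2 (br 3 (br 11 (tri 2 3 11) (col 292 16904 0)) (col
  16900 2336 0)) (col 16904 2336 0)))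

set_option maxRecDepth 100000 in
theorem refute_treeG : refute treeG 0 0 = true := by decide +kernel

set_option maxRecDepth 100000 in
theorem cover_treeK : cover false treeK 0 16711680 = true := by decide +kernel

set_option maxRecDepth 100000 in
theorem cover_treeA : cover true treeA 0 (16777215 - 27564) = true := by decide +kernel

theorem k4free : ∀ x y : Fin 24, adj x y = true → ∀ z : Fin 24, adj x z = true → adj y z = true →
    ∀ w : Fin 24, adj x w = true → adj y w = true → adj z w = true → False := by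
  decide +kernel

end Certificates

section Soundness

theorem or_testBit {A v i : ℕ} (h : (A ||| 1 <<< v).testBit i = true) :
    A.testBit i = true ∨ i = v := by
  rw [Nat.testBit_or, Bool.or_eq_true] at h
  rcases h with h | h
  · exact Or.inl h
  · right
    rw [Nat.shiftLeft_eq, one_mul, Nat.testBit_two_pow] at h
    simpa using (of_decide_eq_true h).symm

theorem or_testBit_false {A v i : ℕ} (h : A.testBit i = false) (hv : i ≠ v) :
    (A ||| 1 <<< v).testBit i = false := by
  by_contra hcon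
  rw [Bool.not_eq_false] at hcon
  rcases or_testBit hcon with h1 | h1
  · rw [h] at h1
    exact Bool.false_ne_true h1
  · exact hv h1

theorem oddWalk_sound (c : ℕ → Bool) (L : ℕ → Prop)
    (hc : ∀ i j, L i → L j → adj i j = true → c i ≠ c j) (f : ℕ) (hf : L f) :
    ∀ (l : List ℕ) (cur : ℕ) (p : Bool), oddWalk f cur p l = true → L cur → (∀ x ∈ l, L x) →
      c cur = (if p then c f else !c f) → False := by
  intro l
  induction l with
  | nil =>
    intro cur p h hcur _ hcol
    simp only [oddWalk, Bool.and_eq_true] at h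
    rw [h.1, if_pos rfl] at hcol
    exact hc cur f hcur hf h.2 hcol
  | cons x l ih =>
    intro cur p h hcur hl hcol
    simp only [oddWalk, Bool.and_eq_true] at h
    have hx : L x := hl x (by simp)
    refine ih x (!p) h.2 hx (fun y hy => hl y (by simp [hy])) ?_
    have hne := hc cur x hcur hx h.1
    cases p <;> cases hcx : c x <;> cases hcc : c cur <;> cases hcf : c f <;> simp_all

theorem triFreeList_sound {l : List ℕ} (h : triFreeList l = true) :
    TriFree graph {x : Fin 24 | (x : ℕ) ∈ l} := by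
  intro x hx y hy z hz hxy hyz hxz
  simp only [triFreeList, List.all_eq_true, Bool.or_eq_true, Bool.not_eq_true',
    Bool.and_eq_false_iff] at h
  rcases h x hx y hy with h1 | h1
  · rw [graph_adj] at hxy
    rw [hxy] at h1
    exact Bool.false_ne_true h1.symm
  · rcases h1 z hz with h2 | h2
    · rw [graph_adj] at hyz
      rw [hyz] at h2
      exact Bool.false_ne_true h2.symm
    · rw [graph_adj] at hxz
      rw [hxz] at h2
      exact Bool.false_ne_true h2.symm

theorem refute_sound (t : DTree) : ∀ (A B : ℕ), refute t A B = true →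
    ∀ (A' B' : Set (Fin 24)), A' ∪ B' = Set.univ →
      (∀ i, A.testBit i = true → ∃ h : i < 24, (⟨i, h⟩ : Fin 24) ∈ A') →
      (∀ i, B.testBit i = true → ∃ h : i < 24, (⟨i, h⟩ : Fin 24) ∈ B') →
      IsPerfect (graph.induce A') → TriFree graph B' → False := by
  induction t with
  | tri i j k =>
    intro A B h A' B' _ _ hB _ ht
    simp only [refute, Bool.and_eq_true] at h
    obtain ⟨⟨⟨⟨⟨h1, h2⟩, h3⟩, h4⟩, h5⟩, h6⟩ := h
    obtain ⟨hi, hi'⟩ := hB i h4
    obtain ⟨hj, hj'⟩ := hB j h5
    obtain ⟨hk, hk'⟩ := hB k h6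
    exact ht _ hi' _ hj' _ hk' h1 h2 h3
  | odd l =>
    intro A B h A' B' _ hA _ hp _
    cases l with
    | nil => simp [refute] at h
    | cons x l =>
      simp only [refute, Bool.and_eq_true] at h
      obtain ⟨⟨h1, h2⟩, h3⟩ := h
      rw [List.all_eq_true] at h1
      refine not_perfect (T := {y : Fin 24 | (y : ℕ) ∈ x :: l}) ?_ (triFreeList_sound h3) ?_ hp
      · intro y hy
        obtain ⟨_, h4⟩ := hA y (h1 y hy)
        exact h4
      · intro c hc
        have hin : ∀ y ∈ x :: l, y < 24 := fun y hy => (hA y (h1 y hy)).1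
        refine oddWalk_sound (fun i => if h : i < 24 then c ⟨i, h⟩ else false)
          (fun i => i ∈ x :: l) ?_ x (by simp) l x true h2 (by simp)
          (fun y hy => List.mem_cons_of_mem _ hy) (by simp)
        intro i j hi hj hij
        simp only [hin i hi, hin j hj, dif_pos]
        exact hc ⟨i, hin i hi⟩ hi ⟨j, hin j hj⟩ hj hij
  | col a b c =>
    intro A B h
    simp [refute] at h
  | br v s t ihs iht =>
    intro A B h A' B' hAB hA hB hp ht
    simp only [refute, Bool.and_eq_true, decide_eq_true_eq] at h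
    obtain ⟨⟨hv, h1⟩, h2⟩ := h
    have : (⟨v, hv⟩ : Fin 24) ∈ A' ∪ B' := by rw [hAB]; trivial
    rcases this with h3 | h3
    · refine ihs _ _ h1 A' B' hAB ?_ hB hp ht
      intro i hi
      rcases or_testBit hi with h4 | rfl
      · exact hA i h4
      · exact ⟨hv, h3⟩
    · refine iht _ _ h2 A' B' hAB hA ?_ hp ht
      intro i hi
      rcases or_testBit hi with h4 | rfl
      · exact hB i h4
      · exact ⟨hv, h3⟩

theorem stable_sound {m : ℕ} (h : stable m = true) (x y : Fin 24) (hx : m.testBit x = true)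
    (hy : m.testBit y = true) : ¬ graph.Adj x y := by
  intro hxy
  simp only [stable, List.all_eq_true, List.mem_range, Bool.or_eq_true, Bool.not_eq_true',
    Bool.and_eq_false_iff] at h
  rcases h x x.2 with h1 | h1
  · rw [hx] at h1
    exact Bool.false_ne_true h1.symm
  · rcases h1 y y.2 with h2 | h2
    · rw [hy] at h2
      exact Bool.false_ne_true h2.symm
    · rw [graph_adj] at hxy
      rw [hxy] at h2
      exact Bool.false_ne_true h2.symm

theorem cover_sound (two : Bool) (t : DTree) : ∀ (I R : ℕ), cover two t I R = true →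
    ∀ S : Set (Fin 24), TriFree graph S →
      (∀ i, I.testBit i = true → ∃ h : i < 24, (⟨i, h⟩ : Fin 24) ∈ S) →
      (∀ x ∈ S, R.testBit (x : ℕ) = false) →
      ∃ a b c : ℕ, stable a = true ∧ stable b = true ∧ stable c = true ∧
        (∀ x ∈ S, a.testBit (x : ℕ) = true ∨ b.testBit (x : ℕ) = true ∨
          c.testBit (x : ℕ) = true) ∧ (two = true → c = 0) := by
  induction t with
  | tri i j k =>
    intro I R h S hS hI _
    exfalso
    simp only [cover, Bool.and_eq_true] at h
    obtain ⟨⟨⟨⟨⟨h1, h2⟩, h3⟩, h4⟩, h5⟩, h6⟩ := h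
    obtain ⟨hi, hi'⟩ := hI i h4
    obtain ⟨hj, hj'⟩ := hI j h5
    obtain ⟨hk, hk'⟩ := hI k h6
    exact hS _ hi' _ hj' _ hk' h1 h2 h3
  | odd l =>
    intro I R h
    simp [cover] at h
  | col a b c =>
    intro I R h S _ _ hR
    simp only [cover, Bool.and_eq_true, List.all_eq_true, List.mem_range, Bool.or_eq_true,
      Bool.not_eq_true', beq_iff_eq] at h
    obtain ⟨⟨⟨⟨h1, h2⟩, h3⟩, h4⟩, h5⟩ := h
    refine ⟨a, b, c, h1, h2, h3, ?_, ?_⟩
    · intro x hx
      have h6 := hR x hx
      rcases h4 x x.2 with ((h7 | h7) | h7) | h7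
      · exact Or.inl h7
      · exact Or.inr (Or.inl h7)
      · exact Or.inr (Or.inr h7)
      · rw [h7] at h6
        exact absurd h6 (by simp)
    · intro htwo
      rcases h5 with h5 | h5
      · rw [htwo] at h5
        exact absurd h5 (by simp)
      · exact h5
  | br v s t ihs iht =>
    intro I R h S hS hI hR
    simp only [cover, Bool.and_eq_true, decide_eq_true_eq] at h
    obtain ⟨⟨hv, h1⟩, h2⟩ := h
    by_cases h3 : (⟨v, hv⟩ : Fin 24) ∈ S
    · refine ihs _ _ h1 S hS ?_ hR
      intro i hi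
      rcases or_testBit hi with h4 | rfl
      · exact hI i h4
      · exact ⟨hv, h3⟩
    · refine iht _ _ h2 S hS hI ?_
      intro x hx
      refine or_testBit_false (hR x hx) ?_
      rintro rfl
      exact h3 hx

/-- The three-colouring given by three stable sets. -/
theorem colour_three {S : Set (Fin 24)} {a b c : ℕ} (ha : stable a = true) (hb : stable b = true)
    (hc : stable c = true) (h : ∀ x ∈ S, a.testBit (x : ℕ) = true ∨ b.testBit (x : ℕ) = true ∨
      c.testBit (x : ℕ) = true) : ∃ f : Fin 24 → Fin 3, ColOn graph S f := by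
  refine ⟨fun x => if a.testBit (x : ℕ) = true then 0 else
    if b.testBit (x : ℕ) = true then 1 else 2, ?_⟩
  intro x hx y hy hxy heq
  have h1 := stable_sound ha x y
  have h2 := stable_sound hb x y
  have h3 := stable_sound hc x y
  have h4 := h x hx
  have h5 := h y hy
  by_cases hax : a.testBit (x : ℕ) = true <;> by_cases hay : a.testBit (y : ℕ) = true <;>
    by_cases hbx : b.testBit (x : ℕ) = true <;> by_cases hby : b.testBit (y : ℕ) = true <;>
    simp_all

/-- The two-colouring given by two stable sets. -/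
theorem colour_two {S : Set (Fin 24)} {a b : ℕ} (ha : stable a = true) (hb : stable b = true)
    (h : ∀ x ∈ S, a.testBit (x : ℕ) = true ∨ b.testBit (x : ℕ) = true) :
    ∃ f : Fin 24 → Fin 2, ColOn graph S f := by
  refine ⟨fun x => if a.testBit (x : ℕ) = true then 0 else 1, ?_⟩
  intro x hx y hy hxy heq
  have h1 := stable_sound ha x y
  have h2 := stable_sound hb x y
  have h4 := h x hx
  have h5 := h y hy
  by_cases hax : a.testBit (x : ℕ) = true <;> by_cases hay : a.testBit (y : ℕ) = true <;>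
    simp_all

end Soundness

section Main

/-- The vertices of the Paley graph minus a vertex. -/
def base : Set (Fin 24) := {x | (x : ℕ) < 16}

theorem base_mask (x : Fin 24) (hx : x ∈ base) : (16711680 : ℕ).testBit (x : ℕ) = false := by
  have key : ∀ x : Fin 24, (x : ℕ) < 16 → (16711680 : ℕ).testBit (x : ℕ) = false := by
    decide +kernel
  exact key x hx

theorem base_three {S : Set (Fin 24)} (hS : S ⊆ base) (ht : TriFree graph S) :
    ∃ f : Fin 24 → Fin 3, ColOn graph S f := by
  obtain ⟨a, b, c, ha, hb, hc, h, -⟩ := cover_sound false treeK 0 16711680 cover_treeK S ht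
    (by intro i hi; simp at hi) (fun x hx => base_mask x (hS hx))
  exact colour_three ha hb hc h

/-- The perfect part of a good partition of the base. -/
def partA : Set (Fin 24) := {x | (27564 : ℕ).testBit (x : ℕ) = true}

/-- The triangle-free part of a good partition of the base. -/
def partB : Set (Fin 24) := {x | (37971 : ℕ).testBit (x : ℕ) = true}

theorem base_parts (x : Fin 24) (hx : x ∈ base) : x ∈ partA ∨ x ∈ partB := by
  have key : ∀ x : Fin 24, (x : ℕ) < 16 →
      (27564 : ℕ).testBit (x : ℕ) = true ∨ (37971 : ℕ).testBit (x : ℕ) = true := by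
    decide +kernel
  exact key x hx

theorem parts_disjoint (x : Fin 24) (hA : x ∈ partA) (hB : x ∈ partB) : False := by
  have key : ∀ x : Fin 24, (27564 : ℕ).testBit (x : ℕ) = true →
      (37971 : ℕ).testBit (x : ℕ) = true → False := by
    decide +kernel
  exact key x hA hB

theorem partA_mask (x : Fin 24) (hx : x ∈ partA) :
    (16777215 - 27564 : ℕ).testBit (x : ℕ) = false := by
  have key : ∀ x : Fin 24, (27564 : ℕ).testBit (x : ℕ) = true →
      (16777215 - 27564 : ℕ).testBit (x : ℕ) = false := by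
    decide +kernel
  exact key x hx

theorem partA_perfect : IsPerfect (graph.induce partA) := by
  apply perfect_of
  · refine colour_three (a := 8324) (b := 16904) (c := 2336) (by decide +kernel)
      (by decide +kernel) (by decide +kernel) ?_
    have key : ∀ x : Fin 24, (27564 : ℕ).testBit (x : ℕ) = true →
        (8324 : ℕ).testBit (x : ℕ) = true ∨ (16904 : ℕ).testBit (x : ℕ) = true ∨
          (2336 : ℕ).testBit (x : ℕ) = true := by
      decide +kernel
    exact fun x hx => key x hx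
  · intro S hS ht
    obtain ⟨a, b, c, ha, hb, -, h, h0⟩ := cover_sound true treeA 0 (16777215 - 27564) cover_treeA S
      ht (by intro i hi; simp at hi) (fun x hx => partA_mask x (hS hx))
    refine colour_two ha hb ?_
    intro x hx
    rcases h x hx with h1 | h1 | h1
    · exact Or.inl h1
    · exact Or.inr h1
    · rw [h0 rfl] at h1
      simp at h1

theorem partB_triFree : TriFree graph partB := by
  have key : ∀ x : Fin 24, (37971 : ℕ).testBit (x : ℕ) = true →
      ∀ y : Fin 24, (37971 : ℕ).testBit (y : ℕ) = true → adj x y = true →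
      ∀ z : Fin 24, (37971 : ℕ).testBit (z : ℕ) = true → adj y z = true → adj x z = true →
        False := by
    decide +kernel
  exact fun x hx y hy z hz hxy hyz hxz => key x hx y hy hxy z hz hyz hxz

/-- The Paley graph minus a vertex is perfectly divisible. -/
theorem base_pd : PDOn graph base := by
  intro T hT he
  by_cases ht : TriFree graph T
  · obtain ⟨c, hc⟩ := base_three hT ht
    refine ⟨{x | x ∈ T ∧ c x ≠ 0}, {x | x ∈ T ∧ c x = 0}, ?_, ?_, ?_, ?_⟩
    · ext x
      by_cases h : c x = 0 <;> simp [h]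
    · rw [Set.disjoint_left]
      intro x hx hx'
      exact hx.2 hx'.2
    · have h2 : ∀ S : Set (Fin 24), S ⊆ {x | x ∈ T ∧ c x ≠ 0} →
          ∃ f : Fin 24 → Fin 2, ColOn graph S f := by
        intro S hS
        refine ⟨fun x => if c x = 1 then 0 else 1, ?_⟩
        intro x hx y hy hxy heq
        have h1 := hc x (hS hx).1 y (hS hy).1 hxy
        have h3 := (hS hx).2
        have h4 := (hS hy).2
        apply h1
        by_cases hx1 : c x = 1 <;> by_cases hy1 : c y = 1
        · rw [hx1, hy1]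
        · simp [hx1, hy1] at heq
        · simp [hx1, hy1] at heq
        · omega
      apply perfect_of
      · obtain ⟨f, hf⟩ := h2 _ (subset_refl _)
        refine ⟨fun x => (f x).castSucc, ?_⟩
        intro x hx y hy hxy heq
        exact hf x hx y hy hxy (Fin.castSucc_injective 2 heq)
      · exact fun S hS _ => h2 S hS
    · refine lt_of_le_of_lt (cliqueNum_le_one ?_) (two_le_cliqueNum he)
      intro x hx y hy hxy
      exact hc x hx.1 y hy.1 hxy (hx.2.trans hy.2.symm)
  · refine ⟨T ∩ partA, T ∩ partB, ?_, ?_, ?_, ?_⟩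
    · rw [← Set.inter_union_distrib_left, Set.inter_eq_left]
      exact fun x hx => base_parts x (hT hx)
    · rw [Set.disjoint_left]
      intro x hx hx'
      exact parts_disjoint x hx.2 hx'.2
    · exact partA_perfect.mono Set.inter_subset_right
    · refine lt_of_le_of_lt (cliqueNum_le_two ?_) (three_le_cliqueNum ht)
      exact fun x hx y hy z hz => partB_triFree x hx.2 y hy.2 z hz.2

theorem cliqueFree_four : graph.CliqueFree 4 := by
  intro s hs
  obtain ⟨x, y, z, w, hxy, hxz, hxw, hyz, hyw, hzw, rfl⟩ : ∃ x y z w : Fin 24,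
      graph.Adj x y ∧ graph.Adj x z ∧ graph.Adj x w ∧ graph.Adj y z ∧ graph.Adj y w ∧
        graph.Adj z w ∧ s = {x, y, z, w} := by
    obtain ⟨x, y, z, w, hxy, hxz, hxw, hyz, hyw, hzw, rfl⟩ := Finset.card_eq_four.1 hs.card_eq
    refine ⟨x, y, z, w, ?_, ?_, ?_, ?_, ?_, ?_, rfl⟩
    · exact hs.isClique (by simp) (by simp) hxy
    · exact hs.isClique (by simp) (by simp) hxz
    · exact hs.isClique (by simp) (by simp) hxw
    · exact hs.isClique (by simp) (by simp) hyz
    · exact hs.isClique (by simp) (by simp) hyw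
    · exact hs.isClique (by simp) (by simp) hzw
  exact k4free x y hxy z hxz hyz w hxw hyw hzw

theorem cliqueNum_univ_le : (graph.induce Set.univ).cliqueNum ≤ 3 := by
  by_contra hcon
  push Not at hcon
  obtain ⟨s, hs⟩ := (graph.induce Set.univ).exists_isNClique_cliqueNum
  have h4 : ¬ (graph.induce Set.univ).CliqueFree 4 := by
    intro h
    exact (h.mono hcon) s hs
  exact h4 (cliqueFree_four.comap ⟨(Embedding.induce Set.univ).toCopy⟩)

/-- The graph is not perfectly divisible. -/
theorem graph_not_pd : ¬ PerfectlyDivisible graph := by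
  intro h
  obtain ⟨A, B, hAB, -, hp, hB⟩ := h Set.univ
    ⟨0, trivial, 1, trivial, by rw [graph_adj]; decide +kernel⟩
  refine refute_sound treeG 0 0 refute_treeG A B hAB (by intro i hi; simp at hi)
    (by intro i hi; simp at hi) hp ?_
  by_contra ht
  have h3 := three_le_cliqueNum ht
  have h4 := cliqueNum_univ_le
  omega

/-- The neighbourhood of each of the new vertices consists of two edges. -/
theorem new_nbhd (v : Fin 24) (hv : v ∉ base) : ∃ p q r s : Fin 24,
    adj p q = true ∧ adj r s = true ∧ adj v p = true ∧ adj v q = true ∧ adj v r = true ∧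
      adj v s = true ∧ ∀ x : Fin 24, adj v x = true → (x = p ∨ x = q) ∨ (x = r ∨ x = s) := by
  have key : ∀ v : Fin 24, ¬ (v : ℕ) < 16 → v = 16 ∨ v = 17 ∨ v = 18 ∨ v = 19 ∨ v = 20 ∨ v = 21 ∨
      v = 22 ∨ v = 23 := by
    decide +kernel
  rcases key v hv with rfl | rfl | rfl | rfl | rfl | rfl | rfl | rfl
  · exact ⟨8, 0, 1, 14, by decide +kernel⟩
  · exact ⟨4, 0, 9, 11, by decide +kernel⟩
  · exact ⟨1, 9, 11, 12, by decide +kernel⟩
  · exact ⟨1, 10, 11, 15, by decide +kernel⟩
  · exact ⟨9, 1, 2, 6, by decide +kernel⟩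
  · exact ⟨5, 7, 11, 10, by decide +kernel⟩
  · exact ⟨0, 13, 14, 10, by decide +kernel⟩
  · exact ⟨4, 6, 15, 11, by decide +kernel⟩

/-- There is a minimally non-perfectly divisible graph with a bisimplicial vertex; it has at most
24 vertices and no clique with four vertices. -/
theorem result : ∃ (V : Type) (_ : Finite V) (G : SimpleGraph V),
    Nat.card V ≤ 24 ∧ G.CliqueFree 4 ∧ MNPD G ∧ ∃ v : V, Bisimplicial G v := by
  obtain ⟨S, hS⟩ := exists_mnpd graph graph_not_pd
  obtain ⟨v, hvS, hv⟩ : ∃ v ∈ S, v ∉ base := by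
    by_contra hcon
    push Not at hcon
    exact hS.1 ((pd_induce_iff graph S).2 (base_pd.mono hcon))
  refine ⟨S, inferInstance, graph.induce S, ?_, ?_, hS, ⟨v, hvS⟩, ?_⟩
  · refine (Nat.card_mono (Set.toFinite _) (Set.subset_univ S)).trans ?_
    simp
  · exact cliqueFree_four.comap ⟨(Embedding.induce S).toCopy⟩
  · obtain ⟨p, q, r, s, hpq, hrs, hp, hq, hr, hs, hall⟩ := new_nbhd v hv
    refine ⟨{x | (x : Fin 24) = p ∨ (x : Fin 24) = q}, {x | (x : Fin 24) = r ∨ (x : Fin 24) = s},
      ?_, ?_, ?_⟩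
    · intro x hx y hy hxy
      have hne : (x : Fin 24) ≠ y := fun h => hxy (Subtype.ext h)
      rw [comap_adj]
      rcases hx with hx | hx <;> rcases hy with hy | hy
      · exact (hne (hx.trans hy.symm)).elim
      · simp only [Function.Embedding.subtype_apply, hx, hy]
        exact hpq
      · simp only [Function.Embedding.subtype_apply, hx, hy]
        exact (show graph.Adj p q from hpq).symm
      · exact (hne (hx.trans hy.symm)).elim
    · intro x hx y hy hxy
      have hne : (x : Fin 24) ≠ y := fun h => hxy (Subtype.ext h)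
      rw [comap_adj]
      rcases hx with hx | hx <;> rcases hy with hy | hy
      · exact (hne (hx.trans hy.symm)).elim
      · simp only [Function.Embedding.subtype_apply, hx, hy]
        exact hrs
      · simp only [Function.Embedding.subtype_apply, hx, hy]
        exact (show graph.Adj r s from hrs).symm
      · exact (hne (hx.trans hy.symm)).elim
    · ext x
      simp only [mem_neighborSet, comap_adj, Function.Embedding.subtype_apply, Set.mem_union,
        Set.mem_ofPred_eq]
      constructor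
      · exact fun hx => hall x hx
      · rintro ((hx | hx) | (hx | hx)) <;> rw [hx]
        · exact hp
        · exact hq
        · exact hr
        · exact hs

end Main

end Pool.Agent.Results.MP_090c48_co.BisimplicialMNPD
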